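import Pool.Agent.R672.DV.Final

/-!
# MP_b4a71d_al: distributive varieties of Lie algebras needing identities of high degree
-/

namespace Pool.Agent.Results.MP_b4a71d_al.HighDegree

open Pool.Agent.R672.DV

universe u

/-- For every field `F` of characteristic `0` and every `n` there is a variety of Lie algebras over
`F` whose lattice of subvarieties is distributive and which has no basis of identities of
degree at most `n` (Q1 is the case `n = 6`). -/
theorem result : ∀ (F : Type u) [Field F] [CharZero F] (n : ℕ),
    ∃ V : Set (LieAlg F), IsVariety V ∧ IsDistributive V ∧ ¬ DefinedInDegree n V := by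
  intro F _ _ n
  exact ⟨Mod (basis F n), ⟨_, rfl⟩, dist_of_chain (chain n), not_defined n⟩

end Pool.Agent.Results.MP_b4a71d_al.HighDegree
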